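import Pool.Agent.H43.QO.TargetsB
import Pool.Agent.H60.QD.KEX
import Pool.Agent.H60.QD.LOC

/-!
# qo board, row VKE: the quadratic form of the violated part of the density on characters
-/

set_option autoImplicit false

namespace Pool.Agent.H52.QO

open Finset Pool.Agent.H76.QE
open Pool.Agent.H1.LP (supp ip comb)
open H43.PS (PosDeg Low av)
open Pool.Agent.H73.OX (ch)
open Pool.Agent.H73.OX
open Pool.Agent.H60.QD

section four

variable {p : ℕ} [hp : Fact p.Prime]

/-- Fourier coefficient of a function of two letters -/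
noncomputable def fc (Φ : ZMod p → ZMod p → ℂ) (s s' : ZMod p) : ℂ :=
  ((p : ℂ) ^ 2)⁻¹ * ∑ u : ZMod p, ∑ u' : ZMod p, Φ u u' * ZMod.stdAddChar (-(s * u + s' * u'))

lemma norm_std (x : ZMod p) : ‖(ZMod.stdAddChar x : ℂ)‖ = 1 := by
  simp

lemma norm_fc (Φ : ZMod p → ZMod p → ℂ) (h : ∀ u u', ‖Φ u u'‖ ≤ 1) (s s' : ZMod p) :
    ‖fc Φ s s'‖ ≤ 1 := by
  have hp0 : (0 : ℝ) < (p : ℝ) ^ 2 := by
    have := hp.out.pos
    positivity
  unfold fc
  rw [norm_mul, norm_inv, norm_pow, Complex.norm_natCast, inv_mul_le_iff₀ hp0, mul_one]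
  calc ‖∑ u : ZMod p, ∑ u' : ZMod p, Φ u u' * (ZMod.stdAddChar (-(s * u + s' * u')) : ℂ)‖
      ≤ ∑ u : ZMod p, ∑ u' : ZMod p, (1 : ℝ) := by
        refine (norm_sum_le _ _).trans (sum_le_sum fun u _ => (norm_sum_le _ _).trans
          (sum_le_sum fun u' _ => ?_))
        rw [norm_mul, norm_std, mul_one]
        exact h u u'
    _ = (p : ℝ) ^ 2 := by
        simp [ZMod.card, pow_two]

lemma sum_std (t : ZMod p) :
    ∑ s : ZMod p, (ZMod.stdAddChar (s * t) : ℂ) = if t = 0 then (p : ℂ) else 0 := by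
  rw [AddChar.sum_mulShift t (ZMod.isPrimitive_stdAddChar p)]
  simp [ZMod.card]

/-- Fourier inversion -/
lemma fc_inv (Φ : ZMod p → ZMod p → ℂ) (v v' : ZMod p) :
    ∑ s : ZMod p, ∑ s' : ZMod p, fc Φ s s' * (ZMod.stdAddChar (s * v + s' * v') : ℂ) = Φ v v' := by
  have hp0 : ((p : ℂ) ^ 2) ≠ 0 := pow_ne_zero _ (Nat.cast_ne_zero.mpr hp.out.ne_zero)
  have h1 : ∀ s s' : ZMod p, fc Φ s s' * (ZMod.stdAddChar (s * v + s' * v') : ℂ) =
      ((p : ℂ) ^ 2)⁻¹ * ∑ u : ZMod p, ∑ u' : ZMod p, Φ u u' *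
        ((ZMod.stdAddChar (s * (v - u)) : ℂ) * (ZMod.stdAddChar (s' * (v' - u')) : ℂ)) := by
    intro s s'
    unfold fc
    rw [mul_assoc, sum_mul]
    congr 1
    refine sum_congr rfl fun u _ => ?_
    rw [sum_mul]
    refine sum_congr rfl fun u' _ => ?_
    rw [mul_assoc, ← AddChar.map_add_eq_mul, ← AddChar.map_add_eq_mul]
    congr 2
    ring
  simp only [h1]
  simp only [← mul_sum]
  have h2 : ∑ s : ZMod p, ∑ s' : ZMod p, ∑ u : ZMod p, ∑ u' : ZMod p, Φ u u' *
        ((ZMod.stdAddChar (s * (v - u)) : ℂ) * (ZMod.stdAddChar (s' * (v' - u')) : ℂ)) =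
      ∑ u : ZMod p, ∑ u' : ZMod p, Φ u u' *
        ((∑ s : ZMod p, (ZMod.stdAddChar (s * (v - u)) : ℂ)) *
          ∑ s' : ZMod p, (ZMod.stdAddChar (s' * (v' - u')) : ℂ)) := by
    have h3 : ∀ s : ZMod p, ∑ s' : ZMod p, ∑ u : ZMod p, ∑ u' : ZMod p, Φ u u' *
        ((ZMod.stdAddChar (s * (v - u)) : ℂ) * (ZMod.stdAddChar (s' * (v' - u')) : ℂ)) =
        ∑ u : ZMod p, ∑ u' : ZMod p, Φ u u' * ((ZMod.stdAddChar (s * (v - u)) : ℂ) *
          ∑ s' : ZMod p, (ZMod.stdAddChar (s' * (v' - u')) : ℂ)) := by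
      intro s
      rw [sum_comm]
      refine sum_congr rfl fun u _ => ?_
      rw [sum_comm]
      refine sum_congr rfl fun u' _ => ?_
      rw [← mul_sum, ← mul_sum]
    rw [sum_congr rfl fun s _ => h3 s, sum_comm]
    refine sum_congr rfl fun u _ => ?_
    rw [sum_comm]
    refine sum_congr rfl fun u' _ => ?_
    rw [← mul_sum, ← sum_mul]
  rw [h2, sum_eq_single v, sum_eq_single v']
  · rw [sub_self, sub_self, sum_std, if_pos rfl, ← pow_two, mul_comm (Φ v v'), ← mul_assoc,
      inv_mul_cancel₀ hp0, one_mul]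
  · intro u' _ hu'
    rw [sum_std (v' - u'), if_neg (sub_ne_zero.2 (Ne.symm hu')), mul_zero, mul_zero]
  · intro h
    exact absurd (mem_univ _) h
  · intro u _ hu
    refine sum_eq_zero fun u' _ => ?_
    rw [sum_std (v - u), if_neg (sub_ne_zero.2 (Ne.symm hu)), zero_mul, mul_zero]
  · intro h
    exact absurd (mem_univ _) h

end four

section kern

variable {p R N : ℕ} [hp : Fact p.Prime]

/-- indicator of the violation of a quadratic equation -/
noncomputable def ph (b0 b1 : ZMod p) (u u' : ZMod p) : ℂ :=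
  if u' - b1 ≠ (u - b0) ^ 2 then 1 else 0

lemma norm_ph (b0 b1 u u' : ZMod p) : ‖ph b0 b1 u u'‖ ≤ 1 := by
  unfold ph
  split_ifs <;> simp

/-- the shift of a coefficient vector -/
def shf (i : Fin R) (s s' : ZMod p) : Fin (R + R) → ZMod p :=
  Pi.single (Fin.castAdd R i) s + Pi.single (Fin.natAdd R i) s'

lemma card_shf (i : Fin R) (s s' : ZMod p) : (supp (shf i s s')).card ≤ 2 := by
  have h1 : supp (shf i s s') ⊆ {Fin.castAdd R i} ∪ {Fin.natAdd R i} :=
    (supp_add _ _).trans (union_subset_union (supp_single _ s) (supp_single _ s'))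
  exact (card_le_card h1).trans ((card_union_le _ _).trans (by simp))

lemma card_add_shf (C : Fin (R + R) → ZMod p) (i : Fin R) (s s' : ZMod p) :
    (supp (C + shf i s s')).card ≤ (supp C).card + 2 :=
  (card_le_card (supp_add _ _)).trans ((card_union_le _ _).trans
    (Nat.add_le_add_left (card_shf i s s') _))

lemma card_sub_shf (C : Fin (R + R) → ZMod p) (i : Fin R) (s s' : ZMod p) :
    (supp (C - shf i s s')).card ≤ (supp C).card + 2 := by
  rw [sub_eq_add_neg]
  refine (card_le_card (supp_add _ _)).trans ((card_union_le _ _).trans ?_)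
  rw [supp_neg]
  exact Nat.add_le_add_left (card_shf i s s') _

lemma card_le_sub_shf (C : Fin (R + R) → ZMod p) (i : Fin R) (s s' : ZMod p) :
    (supp C).card ≤ (supp (C - shf i s s')).card + 2 := by
  have h := card_add_shf (C - shf i s s') i s s'
  rwa [sub_add_cancel] at h

/-- the kernel of the violated part -/
noncomputable def kap (b : Fin (R + R) → ZMod p) (i : Fin R) (τ : ℕ)
    (C : Fin (R + R) → ZMod p) : ℂ :=
  ∑ s : ZMod p, ∑ s' : ZMod p,
    fc (ph (b (Fin.castAdd R i)) (b (Fin.natAdd R i))) s s' *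
      (if (supp (C - shf i s s')).card ≤ τ then KF b (C - shf i s s') else 0)

lemma ip_shf (i : Fin R) (s s' : ZMod p) (c : Fin (R + R) → ZMod p) :
    ip (shf i s s') c = s * c (Fin.castAdd R i) + s' * c (Fin.natAdd R i) := by
  rw [shf, ip_add_left, ip_comm, ip_single, ip_comm, ip_single]
  ring

lemma kap_zero (b : Fin (R + R) → ZMod p) (i : Fin R) (τ : ℕ) (C : Fin (R + R) → ZMod p)
    (h : (supp C).card + 2 ≤ τ) : kap b i τ C = 0 := by
  unfold kap
  have h1 : ∀ s s' : ZMod p, fc (ph (b (Fin.castAdd R i)) (b (Fin.natAdd R i))) s s' *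
      (if (supp (C - shf i s s')).card ≤ τ then KF b (C - shf i s s') else 0) =
      ((p : ℂ) ^ R)⁻¹ * ∑ x : Fin R → ZMod p, (ZMod.stdAddChar (-ip C (sh b x)) : ℂ) *
        (fc (ph (b (Fin.castAdd R i)) (b (Fin.natAdd R i))) s s' *
          (ZMod.stdAddChar (s * sh b x (Fin.castAdd R i) + s' * sh b x (Fin.natAdd R i)) : ℂ)) := by
    intro s s'
    rw [if_pos ((card_sub_shf C i s s').trans h)]
    unfold KF
    rw [mul_left_comm, mul_sum]
    congr 1
    refine sum_congr rfl fun x _ => ?_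
    have e1 : -ip (C - shf i s s') (sh b x) = -ip C (sh b x) +
        (s * sh b x (Fin.castAdd R i) + s' * sh b x (Fin.natAdd R i)) := by
      rw [sub_eq_add_neg, ip_add_left, ip_neg_left, ip_shf]
      ring
    rw [e1, AddChar.map_add_eq_mul]
    ring
  simp only [h1]
  simp only [← mul_sum]
  have h2 : ∑ s : ZMod p, ∑ s' : ZMod p, ∑ x : Fin R → ZMod p,
      (ZMod.stdAddChar (-ip C (sh b x)) : ℂ) *
        (fc (ph (b (Fin.castAdd R i)) (b (Fin.natAdd R i))) s s' *
          (ZMod.stdAddChar (s * sh b x (Fin.castAdd R i) + s' * sh b x (Fin.natAdd R i)) : ℂ)) =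
      ∑ x : Fin R → ZMod p, (ZMod.stdAddChar (-ip C (sh b x)) : ℂ) *
        ph (b (Fin.castAdd R i)) (b (Fin.natAdd R i)) (sh b x (Fin.castAdd R i))
          (sh b x (Fin.natAdd R i)) := by
    have h3 : ∀ s : ZMod p, ∑ s' : ZMod p, ∑ x : Fin R → ZMod p,
        (ZMod.stdAddChar (-ip C (sh b x)) : ℂ) *
        (fc (ph (b (Fin.castAdd R i)) (b (Fin.natAdd R i))) s s' *
          (ZMod.stdAddChar (s * sh b x (Fin.castAdd R i) + s' * sh b x (Fin.natAdd R i)) : ℂ)) =
        ∑ x : Fin R → ZMod p, (ZMod.stdAddChar (-ip C (sh b x)) : ℂ) * ∑ s' : ZMod p,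
        (fc (ph (b (Fin.castAdd R i)) (b (Fin.natAdd R i))) s s' *
          (ZMod.stdAddChar (s * sh b x (Fin.castAdd R i) + s' * sh b x (Fin.natAdd R i)) : ℂ)) := by
      intro s
      rw [sum_comm]
      refine sum_congr rfl fun x _ => ?_
      rw [← mul_sum]
    rw [sum_congr rfl fun s _ => h3 s, sum_comm]
    refine sum_congr rfl fun x _ => ?_
    rw [← mul_sum, fc_inv]
  rw [h2, sum_eq_zero, mul_zero]
  intro x _
  have h4 : ph (b (Fin.castAdd R i)) (b (Fin.natAdd R i)) (sh b x (Fin.castAdd R i))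
      (sh b x (Fin.natAdd R i)) = 0 := by
    have e0 : sh b x (Fin.castAdd R i) = b (Fin.castAdd R i) + x i := by
      unfold sh
      exact Fin.addCases_left i
    have e1 : sh b x (Fin.natAdd R i) = b (Fin.natAdd R i) + x i ^ 2 := by
      unfold sh
      exact Fin.addCases_right i
    unfold ph
    rw [e0, e1, add_sub_cancel_left, add_sub_cancel_left, if_neg (by simp)]
  rw [h4, mul_zero]

lemma kap_norm (b : Fin (R + R) → ZMod p) (i : Fin R) (τ : ℕ) (γ : ℝ) (hγ : 0 ≤ γ)
    (hK : ∀ C : Fin (R + R) → ZMod p, τ < (supp C).card + 4 → ‖KF b C‖ ≤ γ)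
    (C : Fin (R + R) → ZMod p) : ‖kap b i τ C‖ ≤ (p : ℝ) ^ 2 * γ := by
  by_cases h : (supp C).card + 2 ≤ τ
  · rw [kap_zero b i τ C h, norm_zero]
    positivity
  · unfold kap
    calc _ ≤ ∑ s : ZMod p, ∑ s' : ZMod p, γ := by
          refine (norm_sum_le _ _).trans (sum_le_sum fun s _ => (norm_sum_le _ _).trans
            (sum_le_sum fun s' _ => ?_))
          rw [norm_mul]
          have h1 : ‖(if (supp (C - shf i s s')).card ≤ τ then KF b (C - shf i s s') else 0)‖ ≤
              γ := by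
            split_ifs with h2
            · refine hK _ ?_
              have := card_le_sub_shf C i s s'
              omega
            · rw [norm_zero]
              exact hγ
          calc _ ≤ 1 * γ := mul_le_mul (norm_fc _ (norm_ph _ _) s s') h1 (norm_nonneg _)
                zero_le_one
            _ = γ := one_mul γ
      _ = (p : ℝ) ^ 2 * γ := by
          simp only [sum_const, card_univ, ZMod.card, nsmul_eq_mul]
          ring

end kern

section form

variable {p R N : ℕ} [hp : Fact p.Prime]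

/-- the density on characters -/
lemma D0_form (hX : T_CPX) (A : Fin (R + R) → Fin N → ZMod p) (τ : ℕ)
    (b : Fin (R + R) → ZMod p) (z : Fin N → ZMod p) :
    ((D0 A τ b z : ℝ) : ℂ) = ∑ C ∈ CC p (R + R) τ, KF b C * ch (comb A C) z := by
  unfold D0 av KF
  have hc : (Fintype.card (Fin R → ZMod p) : ℝ) = (p : ℝ) ^ R := by
    rw [Fintype.card_fun, ZMod.card, Fintype.card_fin]
    push_cast
    rfl
  rw [hc]
  push_cast
  have h1 : ∀ x : Fin R → ZMod p, ((LD A τ (sh b x) z : ℝ) : ℂ) =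
      ∑ C ∈ CC p (R + R) τ, (ZMod.stdAddChar (-ip C (sh b x)) : ℂ) * ch (comb A C) z := by
    intro x
    rw [hX p (R + R) N τ A (sh b x) z]
    refine sum_congr rfl fun C _ => ?_
    rw [sub_eq_add_neg, AddChar.map_add_eq_mul, mul_comm]
    rfl
  rw [sum_congr rfl fun x _ => h1 x, sum_comm, mul_sum]
  refine sum_congr rfl fun C _ => ?_
  rw [← sum_mul, mul_assoc]

lemma ip_comb_shf (A : Fin (R + R) → Fin N → ZMod p) (i : Fin R) (s s' : ZMod p)
    (z : Fin N → ZMod p) : ip (comb A (shf i s s')) z =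
      s * ip (A (Fin.castAdd R i)) z + s' * ip (A (Fin.natAdd R i)) z := by
  rw [shf, comb_add, ip_add_left, ip_comb_single, ip_comb_single]

/-- the violated part on characters -/
lemma bad_form (hX : T_CPX) (A : Fin (R + R) → Fin N → ZMod p) (τ : ℕ)
    (b : Fin (R + R) → ZMod p) (i : Fin R) (z : Fin N → ZMod p) :
    ((D0 A τ b z : ℝ) : ℂ) * ph (b (Fin.castAdd R i)) (b (Fin.natAdd R i))
      (ip (A (Fin.castAdd R i)) z) (ip (A (Fin.natAdd R i)) z) =
      ∑ C ∈ CC p (R + R) (τ + 2), kap b i τ C * ch (comb A C) z := by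
  set Φ := ph (b (Fin.castAdd R i)) (b (Fin.natAdd R i)) with hΦ
  -- the right side
  have hR : ∑ C ∈ CC p (R + R) (τ + 2), kap b i τ C * ch (comb A C) z =
      ∑ s : ZMod p, ∑ s' : ZMod p, ∑ C ∈ CC p (R + R) (τ + 2), fc Φ s s' *
        (if (supp (C - shf i s s')).card ≤ τ then KF b (C - shf i s s') else 0) *
          ch (comb A C) z := by
    unfold kap
    rw [← hΦ]
    simp only [sum_mul]
    rw [sum_comm]
    refine sum_congr rfl fun s _ => ?_
    rw [sum_comm]
  rw [hR, ← fc_inv Φ, mul_sum]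
  refine sum_congr rfl fun s _ => ?_
  rw [mul_sum]
  refine sum_congr rfl fun s' _ => ?_
  -- drop the condition on the support
  have h1 : ∑ C ∈ CC p (R + R) (τ + 2), fc Φ s s' *
        (if (supp (C - shf i s s')).card ≤ τ then KF b (C - shf i s s') else 0) *
          ch (comb A C) z =
      ∑ C : Fin (R + R) → ZMod p, fc Φ s s' *
        (if (supp (C - shf i s s')).card ≤ τ then KF b (C - shf i s s') else 0) *
          ch (comb A C) z := by
    refine sum_subset (subset_univ _) fun C _ hC => ?_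
    have hC' : ¬ (supp C).card ≤ τ + 2 := by
      intro h
      exact hC (by simpa [CC] using h)
    have h2 := card_le_sub_shf C i s s'
    rw [if_neg (by omega), mul_zero, zero_mul]
  have h2 : ∑ C : Fin (R + R) → ZMod p, fc Φ s s' *
        (if (supp (C - shf i s s')).card ≤ τ then KF b (C - shf i s s') else 0) *
          ch (comb A C) z =
      ∑ C : Fin (R + R) → ZMod p, fc Φ s s' *
        (if (supp C).card ≤ τ then KF b C else 0) * ch (comb A (C + shf i s s')) z := by
    refine (Fintype.sum_equiv (Equiv.addRight (shf i s s')) _ _ fun C => ?_).symm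
    simp only [Equiv.coe_addRight, add_sub_cancel_right]
  rw [h1, h2, D0_form hX, sum_mul]
  unfold CC
  rw [sum_filter]
  refine sum_congr rfl fun C _ => ?_
  by_cases h : (supp C).card ≤ τ
  · rw [if_pos h, if_pos h, comb_add, ch_add_left]
    have e1 : ch (comb A (shf i s s')) z = (ZMod.stdAddChar
        (s * ip (A (Fin.castAdd R i)) z + s' * ip (A (Fin.natAdd R i)) z) : ℂ) := by
      unfold ch
      rw [ip_comb_shf]
    rw [e1]
    ring
  · rw [if_neg h, if_neg h, mul_zero, zero_mul]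

/-- quadratic form of a sum of characters -/
lemma quad_form {M : ℕ} (A : Fin M → Fin N → ZMod p) (Cs : Finset (Fin M → ZMod p))
    (K : (Fin M → ZMod p) → ℂ) (V : Finset (Fin N → ZMod p)) (a : (Fin N → ZMod p) → ℂ)
    (f : (Fin N → ZMod p) → ℝ) (hf : ∀ z, ((f z : ℝ) : ℂ) = ∑ l ∈ V, a l * ch l z) :
    ∑ z, (∑ C ∈ Cs, K C * ch (comb A C) z) * ((f z : ℝ) : ℂ) ^ 2 =
      (p : ℂ) ^ N * ∑ x ∈ V, ∑ y ∈ V, a x * (starRingEnd ℂ) (a y) *
        ∑ C ∈ Cs.filter (fun C => comb A C = y - x), K C := by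
  have h1 : ∀ z, (∑ C ∈ Cs, K C * ch (comb A C) z) * ((f z : ℝ) : ℂ) ^ 2 =
      (∑ C ∈ Cs, K C * ch (comb A C) z) *
        ((∑ x ∈ V, a x * ch x z) * ∑ y ∈ V, (starRingEnd ℂ) (a y) * ch (-y) z) := by
    intro z
    have e1 : ((f z : ℝ) : ℂ) ^ 2 = ((f z : ℝ) : ℂ) * (starRingEnd ℂ) ((f z : ℝ) : ℂ) := by
      rw [Complex.conj_ofReal, pow_two]
    rw [e1, hf z, map_sum]
    congr 2
    refine sum_congr rfl fun y _ => ?_
    rw [map_mul, conj_ch]
  rw [sum_congr rfl fun z _ => h1 z, swap4, mul_sum]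
  refine sum_congr rfl fun x _ => ?_
  rw [mul_sum]
  refine sum_congr rfl fun y _ => ?_
  rw [sum_filter, mul_sum, mul_sum]
  refine sum_congr rfl fun C _ => ?_
  have h2 : ∀ z, K C * ch (comb A C) z * (a x * ch x z * ((starRingEnd ℂ) (a y) * ch (-y) z)) =
      a x * (starRingEnd ℂ) (a y) * K C * ch (comb A C + x + -y) z := by
    intro z
    rw [ch_add_left, ch_add_left]
    ring
  rw [sum_congr rfl fun z _ => h2 z, ← mul_sum, sum_ch]
  have h3 : comb A C + x + -y = 0 ↔ comb A C = y - x := by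
    constructor
    · intro h
      have : comb A C = (comb A C + x + -y) + (y - x) := by abel
      rw [this, h, zero_add]
    · intro h
      rw [h]
      abel
  by_cases h : comb A C = y - x
  · rw [if_pos (h3.2 h), if_pos h]
    ring
  · rw [if_neg fun h' => h (h3.1 h'), if_neg h]
    ring

end form

theorem pf_VKE (CPX : Pool.Agent.H76.QE.T_CPX) : Pool.Agent.H43.QO.T_VKE := by
  classical
  intro p R N τ t₁ hp A b i γ _ _ hγ hK
  refine ⟨kap b i τ, fun C h => kap_zero b i τ C h, fun C => kap_norm b i τ γ hγ hK C, ?_⟩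
  intro V a f hf
  have h1 : ((∑ z, (if Bad A b i z then D0 A τ b z else 0) * f z ^ 2 : ℝ) : ℂ) =
      (p : ℂ) ^ N * ∑ x ∈ V, ∑ y ∈ V, a x * (starRingEnd ℂ) (a y) *
        ∑ C ∈ (CC p (R + R) (τ + 2)).filter (fun C => comb A C = y - x), kap b i τ C := by
    rw [← quad_form A (CC p (R + R) (τ + 2)) (kap b i τ) V a f hf]
    push_cast
    refine sum_congr rfl fun z _ => ?_
    rw [← bad_form CPX A τ b i z]
    congr 1
    unfold ph
    by_cases h : Bad A b i z
    · rw [if_pos h, if_pos (by simpa [Bad] using h), mul_one]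
    · rw [if_neg h, if_neg (by simpa [Bad] using h), mul_zero]
      simp
  have h5 := congrArg Complex.re h1
  rw [Complex.ofReal_re] at h5
  rw [h5]
  have hpN : ((p : ℂ) ^ N) = (((p : ℝ) ^ N : ℝ) : ℂ) := by push_cast; rfl
  rw [hpN, Complex.re_ofReal_mul]

end Pool.Agent.H52.QO
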